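import Pool.Graph.R_seed8.Helper669.Forcing
import Pool.Graph.R_seed8.W684.FM.Defs

/-!
# Martin's Maximum for posets of size `ℵ₁`: the proposition and the sentence
-/

set_option autoImplicit false

namespace Pool.Agent.H633

open Cardinal Pool.Agent.Helper669.Forcing
open Pool.Agent.W684.FM (IsPre IsDenseIn IsFilterIn IsPreN IsDenseN IsFilterN)

abbrev O1 : Type := Pool.Agent.W684.FM.Om1

/-! ### Over the ground model -/

/-- `T` is a stationary subset of `ω₁`: for each total relation `f` on `ω₁` some nonzero `δ` in `T`
is closed under `f`, that is, for each `α < δ` there is `β < δ` with `f α β`. -/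
def Stat (T : O1 → Prop) : Prop :=
  ∀ f : O1 → O1 → Prop, (∀ α, ∃ β, f α β) →
    ∃ δ, (∃ x, x < δ) ∧ T δ ∧ ∀ α, α < δ → ∃ β, β < δ ∧ f α β

/-- All conditions of the preorder `R` on `ω₁` force that `T` is stationary: for each `q` and each
name `C` of a relation on `ω₁` such that `q` forces that `C` is total, some `r ≤ q` forces of some
nonzero `δ` in `T` that it is closed under `C`. (`C α β s` is read as: the condition `s` is attached
to the pair `(α, β)`.) -/
def ForcesStat (R : O1 → O1 → Prop) (T : O1 → Prop) : Prop :=
  ∀ (C : O1 → O1 → O1 → Prop) (q : O1),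
    (∀ α r, R r q → ∃ r', R r' r ∧ ∃ β s, R r' s ∧ C α β s) →
    ∃ r, R r q ∧ ∃ δ, (∃ x, x < δ) ∧ T δ ∧ ∀ α, α < δ → ∀ r', R r' r →
      ∃ r'', R r'' r' ∧ ∃ β, β < δ ∧ ∃ s, R r'' s ∧ C α β s

/-- The preorder `R` preserves the stationary subsets of `ω₁`. -/
def SSP (R : O1 → O1 → Prop) : Prop := ∀ T, Stat T → ForcesStat R T

/-- Martin's Maximum for the preorders with underlying set `ω₁`. -/
def MMO : Prop :=
  ∀ R D : O1 → O1 → Prop, IsPre R → SSP R → (∀ i, IsDenseIn R (D i)) →
    ∃ F : O1 → Prop, IsFilterIn R F ∧ ∀ i, ∃ x, F x ∧ D i x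

/-! ### The sentences of the forcing language -/

section Names

variable {P : Type} [Preorder P]

/-- Forcing version of `Stat`. -/
def StatN (T : O1 → Set P) : Set P :=
  fall fun f : O1 → O1 → Set P => fimp (fall fun α => fex fun β => meets (f α β))
    (fex fun δ => fand (fground (∃ x, x < δ)) (fand (meets (T δ))
      (fall fun α => fimp (fground (α < δ)) (fex fun β => fand (fground (β < δ))
        (meets (f α β))))))

/-- Forcing version of `ForcesStat`. -/
def ForcesStatN (R : O1 → O1 → Set P) (T : O1 → Set P) : Set P :=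
  fall fun C : O1 → O1 → O1 → Set P => fall fun q : O1 =>
    fimp (fall fun α => fall fun r => fimp (meets (R r q)) (fex fun r' =>
        fand (meets (R r' r)) (fex fun β => fex fun s => fand (meets (R r' s)) (meets (C α β s)))))
      (fex fun r => fand (meets (R r q)) (fex fun δ => fand (fground (∃ x, x < δ))
        (fand (meets (T δ)) (fall fun α => fimp (fground (α < δ)) (fall fun r' =>
          fimp (meets (R r' r)) (fex fun r'' => fand (meets (R r'' r')) (fex fun β =>
            fand (fground (β < δ)) (fex fun s => fand (meets (R r'' s)) (meets (C α β s))))))))))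

/-- Forcing version of `SSP`. -/
def SSPN (R : O1 → O1 → Set P) : Set P :=
  fall fun T : O1 → Set P => fimp (StatN T) (ForcesStatN R T)

/-- The sentence `MMO` of the forcing language. -/
def MMON (P : Type) [Preorder P] : Set P :=
  fall fun R : O1 → O1 → Set P => fall fun D : O1 → O1 → Set P =>
    fimp (fand (IsPreN R) (fand (SSPN R) (fall fun i => IsDenseN R (D i))))
      (fex fun F : O1 → Set P => fand (IsFilterN R F)
        (fall fun i => fex fun x => fand (meets (F x)) (meets (D i x))))

end Names

end Pool.Agent.H633
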