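import Pool.Agent.H633.Sent

/-!
# Baumgartner's axiom: the proposition and the sentence
-/

set_option autoImplicit false

namespace Pool.Agent.H633

open Cardinal Pool.Agent.Helper669.Forcing

/-! ### Over the ground model

A real number is given by its lower Dedekind cut, the set of the rationals below it. -/

/-- `c` is the set of all rationals below some real number. -/
def IsCut (c : ℚ → Prop) : Prop :=
  (∃ a, c a) ∧ (∃ a, ¬ c a) ∧ (∀ a, c a → ∃ b, a < b ∧ c b) ∧ ∀ a b, a < b → c b → c a

/-- The real number with the cut `c` is smaller than the real number with the cut `d`. -/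
def CutLt (c d : ℚ → Prop) : Prop := ∃ a, ¬ c a ∧ d a

/-- `x` is a one-to-one enumeration with index set `ω₁` of an `ℵ₁`-dense set of reals: for all
rationals `a < b` there are unboundedly many `j < ω₁` with `a < x j ≤ b`. -/
def DenseEnum (x : O1 → ℚ → Prop) : Prop :=
  (∀ i, IsCut (x i)) ∧ (∀ i j, i ≠ j → CutLt (x i) (x j) ∨ CutLt (x j) (x i)) ∧
    ∀ a b : ℚ, a < b → ∀ i, ∃ j, i < j ∧ x j a ∧ ¬ x j b

/-- Baumgartner's axiom: any two `ℵ₁`-dense sets of reals are order-isomorphic. -/
def BAO : Prop :=
  ∀ x y : O1 → ℚ → Prop, DenseEnum x → DenseEnum y →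
    ∃ h : O1 → O1 → Prop, ((∀ i, ∃ j, h i j) ∧ ∀ i j j', h i j → h i j' → j = j') ∧
      (∀ j, ∃ i, h i j) ∧ ∀ i i' j j', h i j → h i' j' → CutLt (x i) (x i') → CutLt (y j) (y j')

/-! ### The sentences of the forcing language -/

section Names

variable {P : Type} [Preorder P]

/-- Forcing version of `IsCut`. -/
def IsCutN (c : ℚ → Set P) : Set P :=
  fand (fex fun a => meets (c a)) (fand (fex fun a => fnot (meets (c a)))
    (fand (fall fun a => fimp (meets (c a)) (fex fun b => fand (fground (a < b)) (meets (c b))))
      (fall fun a => fall fun b => fimp (fand (fground (a < b)) (meets (c b))) (meets (c a)))))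

/-- Forcing version of `CutLt`. -/
def CutLtN (c d : ℚ → Set P) : Set P := fex fun a => fand (fnot (meets (c a))) (meets (d a))

/-- Forcing version of `∨`. -/
def forr (φ ψ : Set P) : Set P := fnot (fand (fnot φ) (fnot ψ))

/-- Forcing version of `DenseEnum`. -/
def DenseEnumN (x : O1 → ℚ → Set P) : Set P :=
  fand (fall fun i => IsCutN (x i))
    (fand (fall fun i => fall fun j => fimp (fground (i ≠ j))
        (forr (CutLtN (x i) (x j)) (CutLtN (x j) (x i))))
      (fall fun a : ℚ => fall fun b : ℚ => fimp (fground (a < b)) (fall fun i => fex fun j =>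
        fand (fground (i < j)) (fand (meets (x j a)) (fnot (meets (x j b)))))))

/-- The sentence `BAO` of the forcing language. -/
def BAN (P : Type) [Preorder P] : Set P :=
  fall fun x : O1 → ℚ → Set P => fall fun y : O1 → ℚ → Set P =>
    fimp (fand (DenseEnumN x) (DenseEnumN y))
      (fex fun h : O1 → O1 → Set P => fand (IsFun h) (fand (IsOnto h)
        (fall fun i => fall fun i' => fall fun j => fall fun j' =>
          fimp (fand (meets (h i j)) (fand (meets (h i' j')) (CutLtN (x i) (x i'))))
            (CutLtN (y j) (y j')))))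

end Names

end Pool.Agent.H633
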